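import Pool.Agent.Q267.E8.Stm2

set_option autoImplicit false

/-!
# Project E8, job GV: the value of `G`
-/

namespace Pool.Agent.Q154.E8

open Finset Pool.Agent.Q267.CDE Pool.Agent.Q267.MW Pool.Agent.Q267.E8

theorem two_ne (p : ℕ) [Fact p.Prime] (h3 : 3 < p) : (2 : ZMod p) ≠ 0 := by
  have := cast_ne p 2 (by norm_num) (by omega)
  exact_mod_cast this

theorem gv : S_GV := by
  intro p q m _ x Q hp h3 hq hx hm h2q hr hC
  have h2 : (2 : ZMod p) ≠ 0 := two_ne p h3
  have h4 : (4 : ZMod p) ≠ 0 := by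
    have : (4 : ZMod p) = 2 * 2 := by norm_num
    rw [this]
    exact mul_ne_zero h2 h2
  have hrx : red p x = -1 / 4 := by
    have h := congrArg (red p) hx
    rw [map_mul, map_neg, map_one, map_ofNat] at h
    rw [eq_div_iff h4, mul_comm]
    exact h
  have hs : ((-1 : R p)) ^ q * (-4) ^ q = 4 ^ q := by
    rw [← mul_pow]
    norm_num
  have hmq : H (ZMod p) (m - q) = -8 * Q - H (ZMod p) q := by
    rw [hm, h2q] at hr
    linear_combination -hr
  have key : (p : R p) * (x * lift p (H (ZMod p) (2 * q) - H (ZMod p) q)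
      - lift p ((H (ZMod p) m - H (ZMod p) (m - q)) / 2)) =
      p * (-(lift p ((H (ZMod p) m - 3 / 4 * H (ZMod p) (m - q) - 1 / 4 * H (ZMod p) q) / 2)
        + lift p (Q / 4))) := by
    apply p_mul_eq
    rw [map_sub, map_mul, map_neg, map_add, red_lift, red_lift, red_lift, red_lift, hrx, hmq, hm, h2q]
    field_simp
    ring
  have hpp := p_sq p
  rw [hC]
  generalize lift p ((H (ZMod p) m - H (ZMod p) (m - q)) / 2) = L1 at *
  generalize lift p (H (ZMod p) (2 * q) - H (ZMod p) q) = L2 at *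
  generalize lift p ((H (ZMod p) m - 3 / 4 * H (ZMod p) (m - q) - 1 / 4 * H (ZMod p) q) / 2) = L3 at *
  generalize lift p (Q / 4) = L4 at *
  generalize ((m.choose q : ℕ) : R p) = c at *
  linear_combination (c * (1 - p * L1) * (1 + p * x * L2)) * hs + 4 ^ q * c * key +
    4 ^ q * c * (-(L1 * x * L2) - L3 * L4) * hpp

end Pool.Agent.Q154.E8
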