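import Pool.Agent.Q267.E8.Stm2

set_option autoImplicit false

/-!
# Project E8, job RB1: case 1, the residue of `F(λ')`
-/

namespace Pool.Agent.Q154.E8.RB

open Finset Pool.Agent.Q267.CDE Pool.Agent.Q267.MW Pool.Agent.Q267.E8

/-- `(-1)^k C(m+k,k) = C(m,k)` modulo `p = 2m+1`, for `k ≤ m`. -/
theorem choose_refl (p m : ℕ) [Fact p.Prime] (hp : p = 2 * m + 1) (k : ℕ) (hk : k ≤ m) :
    (-1 : ZMod p) ^ k * (((m + k).choose k : ℕ) : ZMod p) = ((m.choose k : ℕ) : ZMod p) := by
  have hm : (2 : ZMod p) * m + 1 = 0 := by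
    have : ((2 * m + 1 : ℕ) : ZMod p) = 0 := by
      rw [← hp]
      exact ZMod.natCast_self p
    exact_mod_cast this
  induction k with
  | zero => simp
  | succ k ih =>
    have ih := ih (by omega)
    have hk1 : ((k + 1 : ℕ) : ZMod p) ≠ 0 := cast_ne p (k + 1) (by omega) (by omega)
    have e1 : (((m + k + 1 : ℕ)) : ZMod p) * (((m + k).choose k : ℕ) : ZMod p) =
        (((m + k + 1).choose (k + 1) : ℕ) : ZMod p) * ((k + 1 : ℕ) : ZMod p) := by
      exact_mod_cast congrArg (Nat.cast : ℕ → ZMod p) (Nat.add_one_mul_choose_eq (m + k) k)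
    have e2 : ((m.choose (k + 1) : ℕ) : ZMod p) * ((k + 1 : ℕ) : ZMod p) =
        ((m.choose k : ℕ) : ZMod p) * ((m : ZMod p) - k) := by
      have := congrArg (Nat.cast : ℕ → ZMod p) (Nat.choose_succ_right_eq m k)
      rw [Nat.cast_mul, Nat.cast_mul, Nat.cast_sub (by omega)] at this
      exact this
    apply mul_right_cancel₀ hk1
    rw [e2, ← add_assoc, mul_assoc, ← e1, ← ih]
    push_cast
    linear_combination (-((-1 : ZMod p) ^ k * (((m + k).choose k : ℕ) : ZMod p))) * hm

theorem red_Kf (p m : ℕ) [Fact p.Prime] (hp : p = 2 * m + 1) (z : R p) :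
    red p (Kf m z) = red p (Ff m z) := by
  unfold Kf Ff
  rw [map_sum, map_sum]
  refine sum_congr rfl fun k hk => ?_
  have hk' : k ≤ m := by
    have := mem_range.1 hk
    omega
  simp only [map_mul, map_pow, map_neg, map_one, red_nat]
  have h := choose_refl p m hp k hk'
  linear_combination (-((m.choose k : ℕ) : ZMod p) * red p z ^ k) * h

theorem rb1 : S_RB1 := by
  intro p q _ r G hp hr h1 h2
  have hpp : p.Prime := Fact.out
  have hq : 0 < q := by
    rcases Nat.eq_zero_or_pos q with h | h
    · subst h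
      rw [hp] at hpp
      exact absurd hpp (by norm_num)
    · exact h
  have two : (2 : ZMod p) ≠ 0 := by
    have := cast_ne p 2 (by norm_num) (by omega)
    exact_mod_cast this
  have hrr : red p r ^ 2 = 2 := by
    have h := congrArg (red p) hr
    rw [map_pow, map_ofNat] at h
    exact h
  have hne : (1 : ZMod p) + red p r ≠ 0 := by
    intro h
    have : (1 : ZMod p) = 0 := by
      linear_combination (-(1 - red p r)) * h - hrr
    exact one_ne_zero this
  have hF : (1 + red p r) ^ (8 * q) = 1 := by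
    have h := ZMod.pow_card_sub_one_eq_one hne
    have e : p - 1 = 8 * q := by omega
    rw [e] at h
    exact h
  have hK := red_Kf p (4 * q) (by omega) (-2 * (1 + r))
  have h1' := congrArg (red p) h1
  have h2' := congrArg (red p) h2
  rw [map_mul, map_pow, map_add, map_one, hF, one_mul] at h1'
  rw [map_mul, map_ofNat, map_add] at h2'
  apply mul_left_cancel₀ two
  rw [h2', ← hK, h1']
  ring

end Pool.Agent.Q154.E8.RB
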